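import Pool.Agent.W559.GF.Stm

/-!
GF-DIAG: diagonalization of quadratic forms given by polynomials.
-/

set_option autoImplicit false

namespace Pool.Agent.W397.GF

open MvPolynomial

variable {K : Type} [Field K] {n : ℕ}

theorem pderiv_comm (i j : Fin n) (Φ : MvPolynomial (Fin n) K) :
    pderiv i (pderiv j Φ) = pderiv j (pderiv i Φ) := by
  have h : (⁅(pderiv i : Derivation K (MvPolynomial (Fin n) K) (MvPolynomial (Fin n) K)),
      (pderiv j : Derivation K (MvPolynomial (Fin n) K) (MvPolynomial (Fin n) K))⁆ :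
      Derivation K (MvPolynomial (Fin n) K) (MvPolynomial (Fin n) K)) = 0 := by
    refine MvPolynomial.derivation_ext (R := K) (A := MvPolynomial (Fin n) K) fun k => ?_
    rw [Derivation.commutator_apply, pderiv_X, pderiv_X]
    simp only [Pi.single_apply]
    split_ifs <;> simp
  have h1 := congrArg (fun D : Derivation K (MvPolynomial (Fin n) K) (MvPolynomial (Fin n) K) =>
    D Φ) h
  simp only [Derivation.commutator_apply] at h1
  exact sub_eq_zero.1 h1

theorem hom_zero {ψ : MvPolynomial (Fin n) K} (h : ψ.IsHomogeneous 0) : ψ = C (coeff 0 ψ) := by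
  apply totalDegree_eq_zero_iff_eq_C.1
  exact Nat.le_zero.1 h.totalDegree_le

/-- the second derivatives -/
noncomputable def cc (Φ : MvPolynomial (Fin n) K) (i j : Fin n) : K :=
  coeff 0 (pderiv j (pderiv i Φ))

theorem cc_symm (Φ : MvPolynomial (Fin n) K) (i j : Fin n) : cc Φ i j = cc Φ j i := by
  unfold cc
  rw [pderiv_comm]

theorem d1 {Φ : MvPolynomial (Fin n) K} (h : Φ.IsHomogeneous 2) (i : Fin n) :
    pderiv i Φ = ∑ j, X j * C (cc Φ i j) := by
  have h1 : (pderiv i Φ).IsHomogeneous 1 := h.pderiv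
  have h2 := h1.sum_X_mul_pderiv
  rw [one_smul] at h2
  rw [← h2]
  refine Finset.sum_congr rfl fun j _ => ?_
  have h3 : (pderiv j (pderiv i Φ)).IsHomogeneous 0 := h1.pderiv
  rw [hom_zero h3]
  rfl

theorem eval_d1 {Φ : MvPolynomial (Fin n) K} (h : Φ.IsHomogeneous 2) (i : Fin n)
    (v : Fin n → K) : eval v (pderiv i Φ) = ∑ j, cc Φ i j * v j := by
  rw [d1 h]
  simp only [map_sum, map_mul, eval_X, eval_C]
  exact Finset.sum_congr rfl fun j _ => mul_comm _ _

theorem eval_phi {Φ : MvPolynomial (Fin n) K} (h : Φ.IsHomogeneous 2) (v : Fin n → K) :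
    2 * eval v Φ = ∑ i, ∑ j, v i * cc Φ i j * v j := by
  have h1 := congrArg (eval v) h.sum_X_mul_pderiv
  simp only [map_sum, map_mul, eval_X, map_nsmul] at h1
  rw [nsmul_eq_mul] at h1
  push_cast at h1
  rw [← h1]
  refine Finset.sum_congr rfl fun i _ => ?_
  rw [eval_d1 h, Finset.mul_sum]
  exact Finset.sum_congr rfl fun j _ => by ring

theorem diag : Pool.Agent.W559.GF.DiagStm := by
  intro K _ _ N Φ hΦ hnd
  have h2 : (2 : K) ≠ 0 := two_ne_zero
  let : Invertible (2 : K) := invertibleOfNonzero h2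
  obtain ⟨B, hB⟩ : ∃ B : LinearMap.BilinForm K (Fin (N + 1) → K),
      B = Matrix.toBilin' (Matrix.of fun i j => cc Φ i j) := ⟨_, rfl⟩
  have hBa : ∀ x y, B x y = ∑ i, ∑ j, x i * cc Φ i j * y j := by
    intro x y
    rw [hB, Matrix.toBilin'_apply]
    rfl
  have hsym : ∀ x y, B x y = B y x := by
    intro x y
    rw [hBa, hBa, Finset.sum_comm]
    refine Finset.sum_congr rfl fun i _ => Finset.sum_congr rfl fun j _ => ?_
    rw [cc_symm]
    ring
  have hS : LinearMap.IsSymm B := ⟨fun x y => by simpa using hsym x y⟩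
  obtain ⟨v0, hv0⟩ := LinearMap.BilinForm.exists_orthogonal_basis hS
  have hfr : Module.finrank K (Fin (N + 1) → K) = N + 1 := Module.finrank_fin_fun K
  obtain ⟨v, hv⟩ : ∃ v : Module.Basis (Fin (N + 1)) K (Fin (N + 1) → K),
      ∀ i j, i ≠ j → B (v i) (v j) = 0 := by
    refine ⟨v0.reindex (finCongr hfr), fun i j hij => ?_⟩
    rw [Module.Basis.reindex_apply, Module.Basis.reindex_apply]
    refine hv0 ?_
    intro h
    exact hij ((finCongr hfr).symm.injective h)
  have hne : ∀ j, B (v j) (v j) ≠ 0 := by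
    intro j h0
    have h3 : ∀ y, B y (v j) = 0 := by
      intro y
      rw [← v.sum_repr y, map_sum, LinearMap.sum_apply]
      refine Finset.sum_eq_zero fun i _ => ?_
      rw [map_smul, LinearMap.smul_apply]
      by_cases hij : i = j
      · rw [hij, h0, smul_zero]
      · rw [hv i j hij, smul_zero]
    have h4 : v j = 0 := by
      apply hnd
      intro i
      rw [eval_d1 hΦ]
      have h5 := h3 (Pi.single i 1)
      rw [hBa] at h5
      rw [Finset.sum_eq_single i] at h5
      · simpa using h5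
      · intro k _ hk
        refine Finset.sum_eq_zero fun l _ => ?_
        rw [Pi.single_eq_of_ne hk]
        ring
      · intro h
        exact absurd (Finset.mem_univ i) h
    exact v.ne_zero j h4
  refine ⟨(Pi.basisFun K (Fin (N + 1))).toMatrix v, v.toMatrix (Pi.basisFun K (Fin (N + 1))),
    fun j => B (v j) (v j) / 2, Module.Basis.toMatrix_mul_toMatrix_flip _ _,
    fun j => div_ne_zero (hne j) h2, ?_⟩
  apply MvPolynomial.funext
  intro y
  have hl : eval y (aeval (fun i => ∑ j, C ((Pi.basisFun K (Fin (N + 1))).toMatrix v i j) * X j :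
      Fin (N + 1) → MvPolynomial (Fin (N + 1)) K) Φ) = eval (∑ j, y j • v j) Φ := by
    have h5 : eval y (aeval (fun i => ∑ j, C ((Pi.basisFun K (Fin (N + 1))).toMatrix v i j) * X j :
      Fin (N + 1) → MvPolynomial (Fin (N + 1)) K) Φ) = eval (fun i => eval y
        (∑ j, C ((Pi.basisFun K (Fin (N + 1))).toMatrix v i j) * X j)) Φ := by
      have e : ∀ (z : Fin (N + 1) → K) (P : MvPolynomial (Fin (N + 1)) K),
        eval z P = aeval z P := fun _ _ => rfl
      rw [e, e, comp_aeval_apply]
      rfl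
    rw [h5]
    congr 2
    funext i
    simp only [map_sum, map_mul, eval_C, eval_X, Module.Basis.toMatrix_apply, Pi.basisFun_repr,
      Finset.sum_apply, Pi.smul_apply, smul_eq_mul]
    exact Finset.sum_congr rfl fun j _ => mul_comm _ _
  rw [hl]
  have h6 := eval_phi hΦ (∑ j, y j • v j)
  rw [← hBa] at h6
  have h7 : B (∑ j, y j • v j) (∑ j, y j • v j) = ∑ j, y j ^ 2 * B (v j) (v j) := by
    rw [map_sum B, LinearMap.sum_apply]
    refine Finset.sum_congr rfl fun j _ => ?_
    rw [map_sum, Finset.sum_eq_single j]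
    · rw [map_smul, map_smul, LinearMap.smul_apply, smul_eq_mul, smul_eq_mul]
      ring
    · intro k _ hk
      rw [map_smul, map_smul, LinearMap.smul_apply, hv j k hk.symm, smul_zero, smul_zero]
    · intro h
      exact absurd (Finset.mem_univ j) h
  rw [h7] at h6
  have h8 : eval y (∑ i, C (B (v i) (v i) / 2) * X i ^ 2) =
      (∑ j, y j ^ 2 * B (v j) (v j)) / 2 := by
    simp only [map_sum, map_mul, eval_C, eval_X, map_pow]
    rw [Finset.sum_div]
    exact Finset.sum_congr rfl fun j _ => by ring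
  rw [h8, ← h6]
  field_simp

end Pool.Agent.W397.GF
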